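import Pool.Agent.Y650.TH.Defs

/-!
# EDGE-STRONG is in the class of parallel access to NP (job ES2-MEM2 of helper650)
-/

set_option autoImplicit false

namespace Pool.Agent.Y528.TH

open Pool.Agent.NPC Pool.Agent.H622R2 Pool.Agent.Y650.TH

/-! ### Tests -/

/-- the indices -/
def rg {α : Type} (l : List α) : List ℕ := List.range l.length

theorem mem_rg {α : Type} {l : List α} {i : ℕ} : i ∈ rg l ↔ i < l.length := List.mem_range

@[fun_prop]
theorem poly_rg {α β : Type} [TEnc α] [TEnc β] {l : α → List β} (hl : Poly l) :
    Poly (fun a => rg (l a)) := NPC.Poly.range_length hl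

/-- the bit -/
def gb (s : List Bool) (i : ℕ) : Bool := s.getD i false

@[fun_prop]
theorem poly_gb {α : Type} [TEnc α] {s : α → List Bool} {i : α → ℕ} (hs : Poly s) (hi : Poly i) :
    Poly (fun a => gb (s a) (i a)) := by
  unfold gb
  fun_prop

/-- adjacency -/
def adjB (M : List (List Bool)) (i j : ℕ) : Bool :=
  !(decide (i = j)) && (gb (M.getD i []) j || gb (M.getD j []) i)

@[fun_prop]
theorem poly_adjB {α : Type} [TEnc α] {M : α → List (List Bool)} {i j : α → ℕ} (hM : Poly M)
    (hi : Poly i) (hj : Poly j) : Poly (fun a => adjB (M a) (i a) (j a)) := by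
  unfold adjB
  fun_prop

theorem adjB_iff (M : List (List Bool)) (i j : Fin M.length) :
    adjB M i j = true ↔ (matGraph M).Adj i j := by
  show _ ↔ i ≠ j ∧ (entry M i j = true ∨ entry M j i = true)
  unfold adjB entry gb
  rw [Bool.and_eq_true, Bool.or_eq_true, Bool.not_eq_true', decide_eq_false_iff_not, ne_eq,
    Fin.ext_iff]

/-- no two adjacent elements -/
def stB (M : List (List Bool)) (s : List Bool) : Bool :=
  (rg M).all fun i => (rg M).all fun j => !((gb s i && gb s j) && adjB M i j)

@[fun_prop]
theorem poly_stB {α : Type} [TEnc α] {M : α → List (List Bool)} {s : α → List Bool} (hM : Poly M)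
    (hs : Poly s) : Poly (fun a => stB (M a) (s a)) := by
  unfold stB
  fun_prop

/-- every index not in the set has a neighbour in it -/
def dmB (M : List (List Bool)) (s : List Bool) : Bool :=
  (rg M).all fun i => gb s i || (rg M).any fun j => gb s j && adjB M i j

@[fun_prop]
theorem poly_dmB {α : Type} [TEnc α] {M : α → List (List Bool)} {s : α → List Bool} (hM : Poly M)
    (hs : Poly s) : Poly (fun a => dmB (M a) (s a)) := by
  unfold dmB
  fun_prop

/-- parity -/
def parB (w s : List Bool) : Bool :=
  decide ((((w.zip s).filter fun p => p.1 && p.2).length) % 2 = 1)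

@[fun_prop]
theorem poly_parB {α : Type} [TEnc α] {w s : α → List Bool} (hw : Poly w)
    (hs : Poly s) : Poly (fun a => parB (w a) (s a)) := by
  unfold parB
  fun_prop

/-- the sets are maximal stable sets -/
def ind1 (M : List (List Bool)) (l : List (List Bool × List Bool)) : Bool :=
  l.all fun p => decide (p.1.length = M.length) && (decide (p.2.length = M.length + 1) &&
    (stB M p.1 && dmB M p.1))

@[fun_prop]
theorem poly_ind1 {α : Type} [TEnc α] {M : α → List (List Bool)}
    {l : α → List (List Bool × List Bool)} (hM : Poly M)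
    (hl : Poly l) : Poly (fun a => ind1 (M a) (l a)) := by
  unfold ind1
  fun_prop

/-- the system is triangular -/
def ind2 (l : List (List Bool × List Bool)) : Bool :=
  (rg l).all fun i => (rg l).all fun j => !(decide (j ≤ i)) ||
    !(xor (parB (l.getD i ([], [])).2 ((l.getD j ([], [])).1 ++ [true])) (decide (j = i)))

@[fun_prop]
theorem poly_ind2 {α : Type} [TEnc α]
    {l : α → List (List Bool × List Bool)}
    (hl : Poly l) : Poly (fun a => ind2 (l a)) := by
  unfold ind2
  fun_prop

/-- a clique -/
def clB (M : List (List Bool)) (K : List Bool) : Bool :=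
  (rg M).all fun i => (rg M).all fun j => !(gb K i && gb K j) || (decide (i = j) || adjB M i j)

@[fun_prop]
theorem poly_clB {α : Type} [TEnc α] {M : α → List (List Bool)} {s : α → List Bool} (hM : Poly M)
    (hs : Poly s) : Poly (fun a => clB (M a) (s a)) := by
  unfold clB
  fun_prop

/-- common elements -/
def meB (M : List (List Bool)) (K s : List Bool) : Bool := (rg M).any fun x => gb K x && gb s x

@[fun_prop]
theorem poly_meB {α : Type} [TEnc α] {M : α → List (List Bool)} {K s : α → List Bool}
    (hM : Poly M) (hK : Poly K) (hs : Poly s) : Poly (fun a => meB (M a) (K a) (s a)) := by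
  unfold meB
  fun_prop

/-- a good clique for the edge -/
def gkB (M : List (List Bool)) (l : List (List Bool × List Bool)) (K : List Bool) (i j : ℕ) :
    Bool :=
  (gb K i && gb K j) && (clB M K && l.all fun p => meB M K p.1)

@[fun_prop]
theorem poly_gkB {α : Type} [TEnc α] {M : α → List (List Bool)}
    {l : α → List (List Bool × List Bool)} {K : α → List Bool} {i j : α → ℕ}
    (hM : Poly M) (hl : Poly l) (hK : Poly K) (hi : Poly i) (hj : Poly j) :
    Poly (fun a => gkB (M a) (l a) (K a) (i a) (j a)) := by
  unfold gkB
  fun_prop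

/-- every edge has a good clique in the list -/
def cvB (M : List (List Bool)) (l : List (List Bool × List Bool)) (c : List (List Bool)) : Bool :=
  (rg M).all fun i => (rg M).all fun j => !(adjB M i j) || c.any fun K => gkB M l K i j

@[fun_prop]
theorem poly_cvB {α : Type} [TEnc α] {M : α → List (List Bool)}
    {l : α → List (List Bool × List Bool)} {c : α → List (List Bool)}
    (hM : Poly M) (hl : Poly l) (hc : Poly c) : Poly (fun a => cvB (M a) (l a) (c a)) := by
  unfold cvB
  fun_prop

/-- the data: a bit, a matrix, a number -/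
abbrev Dat : Type := Bool × List (List Bool) × ℕ

/-- the certificates -/
abbrev Cer : Type := List (List Bool × List Bool) × List (List Bool)

/-- the verifier -/
def R (x : Dat × Cer) : Bool :=
  decide (x.2.1.length = x.1.2.2) && (ind1 x.1.2.1 x.2.1 && (ind2 x.2.1 &&
    (!x.1.1 || cvB x.1.2.1 x.2.1 x.2.2)))

theorem poly_R : Poly R := by
  unfold R
  fun_prop

/-! ### Correctness of the tests -/

theorem mem_vset {M : List (List Bool)} {s : List Bool} {i : Fin M.length} :
    i ∈ vset M s ↔ gb s i = true := Iff.rfl

theorem stB_iff {M : List (List Bool)} {s : List Bool} :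
    stB M s = true ↔ (matGraph M).IsIndepSet (vset M s) := by
  unfold stB
  simp only [List.all_eq_true, mem_rg]
  constructor
  · intro h i hi j hj _ hadj
    have h1 := h i i.2 j j.2
    rw [mem_vset] at hi hj
    rw [hi, hj, (adjB_iff M i j).2 hadj] at h1
    exact absurd h1 (by decide)
  · intro h i hi j hj
    by_contra h1
    rw [Bool.not_eq_true, Bool.not_eq_false', Bool.and_eq_true, Bool.and_eq_true] at h1
    obtain ⟨⟨h2, h3⟩, h4⟩ := h1
    have h5 := (adjB_iff M ⟨i, hi⟩ ⟨j, hj⟩).1 h4
    exact h (x := ⟨i, hi⟩) h2 (y := ⟨j, hj⟩) h3 h5.ne h5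

theorem max_iff {M : List (List Bool)} {s : List Bool} :
    (stB M s = true ∧ dmB M s = true) ↔ Maximal (matGraph M).IsIndepSet (vset M s) := by
  rw [stB_iff]
  unfold dmB
  simp only [List.all_eq_true, mem_rg, Bool.or_eq_true, List.any_eq_true, Bool.and_eq_true]
  constructor
  · rintro ⟨h1, h2⟩
    refine ⟨h1, fun T hT hsT i hi => ?_⟩
    rcases h2 i i.2 with h3 | ⟨j, hj, h3, h4⟩
    · exact h3
    · exfalso
      have h5 := (adjB_iff M i ⟨j, hj⟩).1 h4
      exact hT hi (hsT (show (⟨j, hj⟩ : Fin M.length) ∈ vset M s from h3)) h5.ne h5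
  · rintro ⟨h1, h2⟩
    refine ⟨h1, fun i hi => ?_⟩
    by_contra h3
    push Not at h3
    obtain ⟨h3, h4⟩ := h3
    have h5 : (matGraph M).IsIndepSet (insert (⟨i, hi⟩ : Fin M.length) (vset M s)) := by
      have key : ∀ j ∈ vset M s, ¬ (matGraph M).Adj ⟨i, hi⟩ j := by
        intro j hj hadj
        exact h4 j j.2 hj ((adjB_iff M ⟨i, hi⟩ j).2 hadj)
      intro x hx y hy hxy hadj
      rcases hx with rfl | hx
      · rcases hy with rfl | hy
        · exact hxy rfl
        · exact key y hy hadj
      · rcases hy with rfl | hy
        · exact key x hx hadj.symm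
        · exact h1 hx hy hxy hadj
    have h6 := h2 h5 (Set.subset_insert _ _) (Set.mem_insert _ _)
    exact h3 h6

theorem parB_eq (w s : List Bool) : parB w s = par w s := by
  unfold parB par
  induction w.zip s with
  | nil => simp
  | cons p l ih =>
    rw [List.map_cons, List.foldr_cons, ← ih, List.filter_cons]
    cases hp : (p.1 && p.2)
    · simp
    · simp only [if_true, List.length_cons]
      rcases Nat.mod_two_eq_zero_or_one (l.filter fun p => p.1 && p.2).length with h | h
      · rw [h, show ((l.filter fun p => p.1 && p.2).length + 1) % 2 = 1 by omega]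
        simp
      · rw [h, show ((l.filter fun p => p.1 && p.2).length + 1) % 2 = 0 by omega]
        simp

theorem ind_iff {M : List (List Bool)} {l : List (List Bool × List Bool)} :
    (ind1 M l = true ∧ ind2 l = true) ↔ Ind M l := by
  unfold ind1 ind2 Ind
  simp only [List.all_eq_true, mem_rg, Bool.and_eq_true, decide_eq_true_eq, max_iff, parB_eq]
  refine and_congr_right fun _ => ?_
  constructor
  · intro h i hi j hj
    have h1 := h i hi j (by omega)
    rw [decide_eq_true hj] at h1
    revert h1
    cases par (l.getD i ([], [])).2 ((l.getD j ([], [])).1 ++ [true]) <;>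
      cases decide (j = i) <;> simp
  · intro h i hi j hj
    by_cases hji : j ≤ i
    · rw [h i hi j hji]
      cases decide (j = i) <;> simp
    · rw [decide_eq_false hji]
      simp

theorem clB_iff {M : List (List Bool)} {K : List Bool} :
    clB M K = true ↔ (matGraph M).IsClique (vset M K) := by
  unfold clB
  simp only [List.all_eq_true, mem_rg, Bool.or_eq_true, decide_eq_true_eq, Bool.not_eq_true',
    Bool.and_eq_false_iff]
  constructor
  · intro h i hi j hj hij
    rw [mem_vset] at hi hj
    rcases h i i.2 j j.2 with h1 | h1 | h1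
    · rcases h1 with h1 | h1
      · rw [hi] at h1
        exact absurd h1 (by decide)
      · rw [hj] at h1
        exact absurd h1 (by decide)
    · exact absurd (Fin.ext h1) hij
    · exact (adjB_iff M i j).1 h1
  · intro h i hi j hj
    by_cases h1 : gb K i = true
    · by_cases h2 : gb K j = true
      · by_cases h3 : i = j
        · exact Or.inr (Or.inl h3)
        · refine Or.inr (Or.inr ((adjB_iff M ⟨i, hi⟩ ⟨j, hj⟩).2 ?_))
          exact h (x := ⟨i, hi⟩) h1 (y := ⟨j, hj⟩) h2 (fun h4 => h3 (Fin.mk.inj_iff.1 h4))
      · exact Or.inl (Or.inr (by simpa using h2))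
    · exact Or.inl (Or.inl (by simpa using h1))

theorem meB_iff {M : List (List Bool)} {K s : List Bool} :
    meB M K s = true ↔ (vset M K ∩ vset M s).Nonempty := by
  unfold meB
  simp only [List.any_eq_true, mem_rg, Bool.and_eq_true]
  constructor
  · rintro ⟨x, hx, h1, h2⟩
    exact ⟨⟨x, hx⟩, h1, h2⟩
  · rintro ⟨x, h1, h2⟩
    exact ⟨x, x.2, h1, h2⟩

/-- the edge condition -/
def Cov (M : List (List Bool)) (l : List (List Bool × List Bool)) : Prop :=
  ∀ i j : Fin M.length, (matGraph M).Adj i j → ∃ K : Set (Fin M.length),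
      (matGraph M).IsClique K ∧ i ∈ K ∧ j ∈ K ∧ ∀ p ∈ l, (K ∩ vset M p.1).Nonempty

theorem gkB_iff {M : List (List Bool)} {l : List (List Bool × List Bool)} {K : List Bool}
    {i j : Fin M.length} : gkB M l K i j = true ↔
      (matGraph M).IsClique (vset M K) ∧ i ∈ vset M K ∧ j ∈ vset M K ∧
        ∀ p ∈ l, (vset M K ∩ vset M p.1).Nonempty := by
  unfold gkB
  simp only [Bool.and_eq_true, List.all_eq_true, clB_iff, meB_iff, ← mem_vset]
  tauto

theorem cov_of {M : List (List Bool)} {l : List (List Bool × List Bool)} {c : List (List Bool)}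
    (h : cvB M l c = true) : Cov M l := by
  intro i j hij
  unfold cvB at h
  simp only [List.all_eq_true, mem_rg, Bool.or_eq_true, List.any_eq_true] at h
  rcases h i i.2 j j.2 with h1 | ⟨K, _, h2⟩
  · rw [(adjB_iff M i j).2 hij] at h1
    exact absurd h1 (by decide)
  · exact ⟨vset M K, gkB_iff.1 h2⟩

open Classical in
/-- the list of a set -/
noncomputable def toL {n : ℕ} (K : Set (Fin n)) : List Bool :=
  (List.range n).map fun x => decide (∃ h : x < n, (⟨x, h⟩ : Fin n) ∈ K)

theorem length_toL {n : ℕ} (K : Set (Fin n)) : (toL K).length = n := by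
  unfold toL
  rw [List.length_map, List.length_range]

theorem vset_toL {M : List (List Bool)} (K : Set (Fin M.length)) : vset M (toL K) = K := by
  classical
  ext i
  rw [mem_vset]
  unfold gb toL
  rw [List.getD_eq_getElem _ _ (by rw [List.length_map, List.length_range]; exact i.2),
    List.getElem_map, List.getElem_range, decide_eq_true_eq]
  exact ⟨fun ⟨_, h⟩ => h, fun h => ⟨i.2, h⟩⟩

theorem cov_to {M : List (List Bool)} {l : List (List Bool × List Bool)} (h : Cov M l) :
    ∃ c : List (List Bool), c.length = M.length * M.length ∧ (∀ K ∈ c, K.length ≤ M.length) ∧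
      cvB M l c = true := by
  classical
  have hex : ∀ i j : ℕ, ∃ K : List Bool, K.length ≤ M.length ∧
      (i < M.length → j < M.length → adjB M i j = true → gkB M l K i j = true) := by
    intro i j
    by_cases hh : ∃ (hi : i < M.length) (hj : j < M.length),
        (matGraph M).Adj ⟨i, hi⟩ ⟨j, hj⟩
    · obtain ⟨hi, hj, hadj⟩ := hh
      obtain ⟨K, hK⟩ := h _ _ hadj
      refine ⟨toL K, (length_toL K).le, fun _ _ _ => ?_⟩
      have h1 := gkB_iff (M := M) (l := l) (K := toL K) (i := ⟨i, hi⟩) (j := ⟨j, hj⟩)
      rw [vset_toL] at h1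
      exact h1.2 hK
    · refine ⟨[], Nat.zero_le _, fun hi hj hadj => ?_⟩
      exact absurd ⟨hi, hj, (adjB_iff M ⟨i, hi⟩ ⟨j, hj⟩).1 hadj⟩ hh
  choose K hK1 hK2 using hex
  refine ⟨(List.range M.length).flatMap fun i => (List.range M.length).map fun j => K i j,
    ?_, ?_, ?_⟩
  · rw [List.length_flatMap]
    simp
  · intro k hk
    rw [List.mem_flatMap] at hk
    obtain ⟨i, _, hk⟩ := hk
    rw [List.mem_map] at hk
    obtain ⟨j, _, rfl⟩ := hk
    exact hK1 i j
  · unfold cvB
    simp only [List.all_eq_true, mem_rg, Bool.or_eq_true, List.any_eq_true]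
    intro i hi j hj
    by_cases hadj : adjB M i j = true
    · refine Or.inr ⟨K i j, ?_, hK2 i j hi hj hadj⟩
      rw [List.mem_flatMap]
      exact ⟨i, List.mem_range.2 hi, List.mem_map.2 ⟨j, List.mem_range.2 hj, rfl⟩⟩
    · left
      simpa using hadj

/-! ### The oracle -/

/-- the queries -/
def P (a : Dat) : Prop :=
  (a.1 = true ∧ CertE a.2.1 a.2.2) ∨ (a.1 = false ∧ CertR a.2.1 a.2.2)

theorem P_true {M : List (List Bool)} {r : ℕ} : P (true, M, r) ↔ CertE M r := by
  unfold P
  simp

theorem P_false {M : List (List Bool)} {r : ℕ} : P (false, M, r) ↔ CertR M r := by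
  unfold P
  simp

theorem length_le_sz {α : Type} [TEnc α] (l : List α) : l.length ≤ sz l := by
  induction l with
  | nil => simp
  | cons a l ih =>
    rw [List.length_cons, sz_list_cons]
    omega

/-- the bound for the certificates -/
noncomputable def pb : Polynomial ℕ :=
  ((Polynomial.X + 1) * (8 * Polynomial.X + 8) + 1) +
    (Polynomial.X * Polynomial.X * (4 * Polynomial.X + 2) + 1) + 1

theorem inNP_P (hM1 : ∀ M r, CertR M r → r ≤ M.length + 1) : InNPP P := by
  refine inNPP_of (R := R) poly_R pb fun a => ?_
  obtain ⟨b, M, r⟩ := a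
  have hR : ∀ w : Cer, R ((b, M, r), w) = true ↔
      (w.1.length = r ∧ Ind M w.1 ∧ (b = false ∨ cvB M w.1 w.2 = true)) := by
    intro w
    rw [← ind_iff]
    unfold R
    simp only [Bool.and_eq_true, decide_eq_true_eq, Bool.or_eq_true, Bool.not_eq_true']
    tauto
  constructor
  · intro h
    -- the system
    obtain ⟨l, hl, hI, hC⟩ : ∃ l : List (List Bool × List Bool), l.length = r ∧ Ind M l ∧
        (b = false ∨ Cov M l) := by
      rcases h with ⟨hb, l, h1, h2, h3⟩ | ⟨hb, l, h1, h2⟩
      · exact ⟨l, h1, h2, Or.inr h3⟩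
      · exact ⟨l, h1, h2, Or.inl hb⟩
    have hr : r ≤ M.length + 1 := hM1 M r ⟨l, hl, hI⟩
    obtain ⟨c, hc1, hc2, hc3⟩ : ∃ c : List (List Bool), c.length ≤ M.length * M.length ∧
        (∀ K ∈ c, K.length ≤ M.length) ∧ (b = false ∨ cvB M l c = true) := by
      rcases hC with hb | hC
      · exact ⟨[], Nat.zero_le _, fun K hK => absurd hK (by simp), Or.inl hb⟩
      · obtain ⟨c, h1, h2, h3⟩ := cov_to hC
        exact ⟨c, h1.le, h2, Or.inr h3⟩
    refine ⟨(l, c), ?_, (hR _).2 ⟨hl, hI, hc3⟩⟩
    have hn : M.length ≤ sz ((b, M, r) : Dat) := by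
      have h1 := length_le_sz M
      rw [sz_pair, sz_pair]
      omega
    have s1 : sz l ≤ (M.length + 1) * (8 * M.length + 8) + 1 := by
      refine (sz_le_length_mul l (8 * M.length + 7) fun p hp => ?_).trans ?_
      · obtain ⟨h1, h2, _⟩ := hI.1 p hp
        have h3 := sz_listBool_le p.1
        have h4 := sz_listBool_le p.2
        have h5 : sz p = sz p.1 + sz p.2 + 1 := sz_pair p.1 p.2
        omega
      · rw [hl]
        have : r * (8 * M.length + 7 + 1) ≤ (M.length + 1) * (8 * M.length + 8) :=
          Nat.mul_le_mul hr le_rfl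
        omega
    have s2 : sz c ≤ M.length * M.length * (4 * M.length + 2) + 1 := by
      refine (sz_le_length_mul c (4 * M.length + 1) fun K hK => ?_).trans ?_
      · have h3 := sz_listBool_le K
        have h4 := hc2 K hK
        omega
      · have : c.length * (4 * M.length + 1 + 1) ≤ M.length * M.length * (4 * M.length + 2) :=
          Nat.mul_le_mul hc1 le_rfl
        omega
    have s3 : sz ((l, c) : Cer) ≤ pb.eval M.length := by
      rw [sz_pair]
      have e : pb.eval M.length = ((M.length + 1) * (8 * M.length + 8) + 1) +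
          (M.length * M.length * (4 * M.length + 2) + 1) + 1 := by
        simp [pb]
      omega
    exact s3.trans (eval_mono pb hn)
  · rintro ⟨w, _, hw⟩
    obtain ⟨h1, h2, h3⟩ := (hR w).1 hw
    cases b with
    | false => exact Or.inr ⟨rfl, w.1, h1, h2⟩
    | true =>
      rcases h3 with h3 | h3
      · exact absurd h3 (by decide)
      · exact Or.inl ⟨rfl, w.1, h1, h2, cov_of h3⟩

/-! ### Queries and evaluation -/

theorem bits_poly {α : Type} [TEnc α] : Poly (fun a : α => bits a) := by
  have h1 : PC (bits : α → List Bool) (fun x : List Bool => x) (fun a : α => bits a) :=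
    PC.id (ea := (bits : α → List Bool))
  exact PC.comp (g := fun x => x) (f := fun a : α => bits a) PC.rawIn h1

@[fun_prop]
theorem poly_bits {α β : Type} [TEnc α] [TEnc β] {f : α → β} (hf : Poly f) :
    Poly (fun a => bits (f a)) := bits_poly.comp hf

/-- the numbers up to `n + 1` -/
def rr (M : List (List Bool)) : List ℕ := rg ([] :: [] :: M)

theorem mem_rr {M : List (List Bool)} {r : ℕ} : r ∈ rr M ↔ r ≤ M.length + 1 := by
  unfold rr
  rw [mem_rg, List.length_cons, List.length_cons]
  omega

@[fun_prop]
theorem poly_rr {α : Type} [TEnc α] {M : α → List (List Bool)} (hM : Poly M) :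
    Poly (fun a => rr (M a)) := by
  unfold rr
  fun_prop

/-- the queries for a matrix -/
def qm (M : List (List Bool)) : List (List Bool) :=
  ((rr M).map fun r => bits ((true, M, r) : Dat)) ++
    (rr M).map fun r => bits ((false, M, r + 1) : Dat)

@[fun_prop]
theorem poly_qm {α : Type} [TEnc α] {M : α → List (List Bool)} (hM : Poly M) :
    Poly (fun a => qm (M a)) := by
  unfold qm
  fun_prop

/-- the queries -/
def qs (x : List Bool) : List (List Bool) := (unbits (List (List Bool)) x).elim [] qm

theorem poly_qs : Poly qs := by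
  unfold qs
  have h := poly_unbits (α := List (List Bool))
  exact NPC.Poly.optElim (h := fun _ M => qm M) h (NPC.Poly.const _) (by fun_prop)

/-- the evaluation for a matrix -/
def em (M : List (List Bool)) (ans : List Bool) : Bool :=
  (rr M).any fun r => gb ans r && !(gb ans (r + (M.length + 2)))

@[fun_prop]
theorem poly_em {α : Type} [TEnc α] {M : α → List (List Bool)} {ans : α → List Bool}
    (hM : Poly M) (ha : Poly ans) : Poly (fun a => em (M a) (ans a)) := by
  unfold em
  fun_prop

/-- the evaluation -/
def ev (p : List Bool × List Bool) : Bool :=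
  (unbits (List (List Bool)) p.1).elim false fun M => em M p.2

theorem poly_ev : Poly ev := by
  unfold ev
  have h : Poly (fun p : List Bool × List Bool => unbits (List (List Bool)) p.1) :=
    (poly_unbits (α := List (List Bool))).comp (NPC.Poly.fst NPC.Poly.id)
  exact NPC.Poly.optElim (h := fun p M => em M p.2) h (NPC.Poly.const _) (by fun_prop)

/-- the evaluation of strings -/
def es (y : List Bool) : Bool := (unbits (List Bool × List Bool) y).elim false ev

theorem poly_es : Poly es := by
  unfold es
  have h := poly_unbits (α := List Bool × List Bool)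
  exact NPC.Poly.optElim (h := fun _ p => ev p) h (NPC.Poly.const _)
    (poly_ev.comp (NPC.Poly.snd NPC.Poly.id))

theorem mem2 : S_MEM2 := by
  classical
  rintro ⟨hM1, hM2⟩
  refine ⟨lang P, fun x => bits (qs x), fun y => [es y], inNP_P hM1, polyTime_bits poly_qs,
    polyTime_of_poly poly_es, fun x => ?_⟩
  refine ⟨qs x, (qs x).map fun y => decide (y ∈ lang P), rfl, ?_, ?_⟩
  · rw [List.forall₂_map_left_iff]
    exact List.forall₂_same.2 fun y _ => decide_eq_true_iff
  · show _ ↔ [es (bits (x, (qs x).map fun y => decide (y ∈ lang P)))] = [true]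
    unfold es
    rw [unbits_bits, List.cons.injEq, and_iff_left rfl, mem_lang_iff]
    show _ ↔ ev (x, (qs x).map fun y => decide (y ∈ lang P)) = true
    unfold ev qs
    cases hx : unbits (List (List Bool)) x with
    | none => simp
    | some M =>
      simp only [Option.some.injEq, exists_eq_left', Option.elim_some]
      rw [hM2 M]
      unfold em
      simp only [List.any_eq_true, Bool.and_eq_true]
      have hl : (rr M).length = M.length + 2 := by
        unfold rr rg
        rw [List.length_range]
        rfl
      have hg : ∀ (i : ℕ) (hi : i < (rr M).length), (rr M)[i] = i := by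
        intro i hi
        unfold rr rg
        rw [List.getElem_range]
      have h1 : ∀ r, r ≤ M.length + 1 →
          (gb ((qm M).map fun y => decide (y ∈ lang P)) r = true ↔ CertE M r) := by
        intro r hr
        unfold gb qm
        rw [List.map_append, List.getD_append _ _ _ _ (by
            rw [List.length_map, List.length_map, hl]; omega),
          List.getD_eq_getElem _ _ (by rw [List.length_map, List.length_map, hl]; omega),
          List.getElem_map, List.getElem_map, hg, decide_eq_true_eq, bits_mem_lang, P_true]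
      have h2 : ∀ r, r ≤ M.length + 1 →
          (gb ((qm M).map fun y => decide (y ∈ lang P)) (r + (M.length + 2)) = true ↔
            CertR M (r + 1)) := by
        intro r hr
        unfold gb qm
        rw [List.map_append, List.getD_append_right _ _ _ _ (by
            rw [List.length_map, List.length_map, hl]; omega),
          List.length_map, List.length_map, hl, Nat.add_sub_cancel,
          List.getD_eq_getElem _ _ (by rw [List.length_map, List.length_map, hl]; omega),
          List.getElem_map, List.getElem_map, hg, decide_eq_true_eq, bits_mem_lang, P_false]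
      constructor
      · rintro ⟨r, hr, h3, h4⟩
        refine ⟨r, mem_rr.2 hr, (h1 r hr).2 h3, ?_⟩
        rw [Bool.not_eq_true', ← Bool.not_eq_true, h2 r hr]
        exact h4
      · rintro ⟨r, hr, h3, h4⟩
        rw [mem_rr] at hr
        refine ⟨r, hr, (h1 r hr).1 h3, ?_⟩
        rw [Bool.not_eq_true', ← Bool.not_eq_true, h2 r hr] at h4
        exact h4

end Pool.Agent.Y528.TH
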